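import Pool.Agent.H103.RelDav.Main

/-!
MP_ee6f41_nt (small relative Davenport constants along cyclic subgroups of a quotient), for all
finite abelian `p`-groups `G`, all subgroups `H` and all cosets.
-/

namespace Pool.Agent.Results.MP_ee6f41_nt.PGroups

open Finset H103RelDav

/-- Let `G` be a finite abelian `p`-group, `H` a subgroup, `α` a coset of `H` and `β` a coset in the
cyclic subgroup of `G ⧸ H` generated by `α`. Then `d_β(G) ≤ d_α(G)`; the lengths over which the two
maxima are taken are bounded. -/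
theorem result (p : ℕ) (hp : p.Prime) (G : Type*) [AddCommGroup G] [Finite G]
    (hG : ∃ m, Nat.card G = p ^ m) (H : AddSubgroup G) (α β : G ⧸ H)
    (hβ : β ∈ AddSubgroup.zmultiples α) :
    dRel (cosetSet H β) ≤ dRel (cosetSet H α) ∧
      ∀ S : Set G, BddAbove {n : ℕ | ∃ f : Fin n → G, (∑ i, f i) ∈ S ∧
        ∀ A : Finset (Fin n), A.Nonempty → ∑ i ∈ A, f i ≠ 0} := by
  classical
  obtain ⟨ι, _, e, ⟨φ⟩⟩ := exists_coord hp G hG
  refine ⟨?_, fun S => ⟨_, bdd hp e φ S⟩⟩
  by_cases hα : ∃ a ∈ cosetSet H α, a ≠ 0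
  · obtain ⟨h, h1, h2⟩ := exists_height hp e φ H α hα
    have hv := value hp e φ H α h h1 h2
    have hb : ∀ n ∈ {n : ℕ | ∃ f : Fin n → G, (∑ i, f i) ∈ cosetSet H β ∧
        ∀ A : Finset (Fin n), A.Nonempty → ∑ i ∈ A, f i ≠ 0}, n ≤ dRel (cosetSet H α) := by
      rintro n ⟨f, hs, hf⟩
      rcases Nat.eq_zero_or_pos n with rfl | hn
      · exact Nat.zero_le _
      · have := length_bound hp e φ h (dvd_of_multiple H α β hβ _ h1) hn f hs hf
        omega
    exact csSup_le' hb
  · push Not at hα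
    obtain ⟨a, ha⟩ := exists_rep H α
    have ha0 := hα a ha
    subst ha0
    have hα0 : α = 0 := by
      rw [← show (QuotientAddGroup.mk 0 : G ⧸ H) = α from ha, QuotientAddGroup.mk_zero]
    subst hα0
    have hβ0 : β = 0 := by simpa using hβ
    rw [hβ0]

end Pool.Agent.Results.MP_ee6f41_nt.PGroups
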